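import Mathlib
import Pool.Agent.V11161.BH.AP

set_option autoImplicit false

/-!
# Almost all vectors of a Bohr set are differences of primes of a residue class, uniformly in the modulus
-/

namespace Pool.Agent.V11161.BH

open Finset Filter Topology
open Pool.Agent.V11161.BF

open Classical in
/-- uniform in the modulus: only the factor `M z!` of the differences depends on `M` -/
theorem bohrAPU (k : ℕ) (η : ℝ) (hη : 0 < η) :
    ∃ (z d C X₀ : ℕ) (ρ b : ℝ), 0 < ρ ∧ 0 < b ∧ ∀ (M : ℕ), 0 < M → ∀ c : ℕ, Nat.Coprime c M →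
      ∀ X : ℕ, X₀ ≤ X → ∃ (θ : Fin d → ℝ) (H : Finset (Fin k → ℤ)),
        b * X ≤ ((bohrSet θ ρ X).ncard : ℝ) ∧
        (∀ h ∈ H, (∀ i, h i ∈ bohrSet θ ρ X ∧ h i ≠ 0) ∧ Function.Injective h) ∧
        (1 - η) * ((bohrSet θ ρ X).ncard : ℝ) ^ k ≤ (H.card : ℝ) ∧
        ∃ᶠ N : ℕ in atTop, ∀ h ∈ H, (N : ℝ) / (Real.log N) ^ C ≤
          ((classPrimes M c (M * z.factorial) h N).ncard : ℝ) := by
  obtain ⟨z, d, C, X₀, ρ, b, hρ, hb, hS⟩ := seqTuples k η hη
  refine ⟨z, d, C + 1, X₀, ρ, b, hρ, hb, fun M hM c hc X hX => ?_⟩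
  set W : ℕ := M * z.factorial with hW
  have hW0 : 0 < W := Nat.mul_pos hM (Nat.factorial_pos z)
  have hMW : M ∣ W := Dvd.intro _ rfl
  set Φ : ℕ → ℤ × ℤ := fun u => ((M : ℤ), ((c + W * u : ℕ) : ℤ)) with hΦ
  obtain ⟨θ, H, h1, h2, h3, h4⟩ := hS Φ (by
      intro u u' huu
      have h5 : ((c + W * u : ℕ) : ℤ) = ((c + W * u' : ℕ) : ℤ) := congrArg Prod.snd huu
      have h6 : c + W * u = c + W * u' := by exact_mod_cast h5
      exact Nat.eq_of_mul_eq_mul_left hW0 (Nat.add_left_cancel h6)) (fun u => ⟨by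
      show (0 : ℤ) < (M : ℤ)
      exact_mod_cast hM, by
      show IsCoprime (M : ℤ) ((c + W * u : ℕ) : ℤ)
      rw [Nat.isCoprime_iff_coprime]
      obtain ⟨t, ht⟩ := hMW
      rw [ht, Nat.mul_assoc, Nat.coprime_add_mul_left_right]
      exact hc.symm⟩) (by
      intro p hp hpz
      have hpW : (p : ℤ) ∣ (W : ℤ) := by
        exact_mod_cast (Nat.dvd_factorial hp.pos hpz).trans (Dvd.intro_left M rfl)
      have key : ∀ t : ℤ, ¬ (p : ℤ) ∣ (M : ℤ) * t + c → ∀ u : ℕ,
          ¬ (p : ℤ) ∣ (Φ u).1 * t + (Φ u).2 := by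
        intro t ht u hd
        apply ht
        have e : (Φ u).1 * t + (Φ u).2 = ((M : ℤ) * t + c) + W * u := by
          show (M : ℤ) * t + ((c + W * u : ℕ) : ℤ) = ((M : ℤ) * t + c) + W * u
          push_cast
          ring
        rw [e] at hd
        exact (Int.dvd_iff_dvd_of_dvd_add hd).2 (hpW.mul_right _)
      by_cases hpc : (p : ℤ) ∣ (c : ℤ)
      · refine ⟨1, key 1 ?_⟩
        intro hd
        rw [mul_one] at hd
        have h5 : (p : ℤ) ∣ (M : ℤ) := (Int.dvd_iff_dvd_of_dvd_add hd).2 hpc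
        have h6 : p ∣ 1 := by
          rw [← hc]
          exact Nat.dvd_gcd (by exact_mod_cast hpc) (by exact_mod_cast h5)
        exact hp.one_lt.ne' (Nat.dvd_one.1 h6)
      · refine ⟨0, key 0 ?_⟩
        rw [mul_zero, zero_add]
        exact hpc) X hX
  refine ⟨θ, H, h1, h2, h3, ?_⟩
  set D : ℕ := 2 * M with hD
  have hD0 : 0 < D := by omega
  have htend : Tendsto (fun N : ℕ => D * N) atTop atTop :=
    tendsto_atTop_mono (fun N => Nat.le_mul_of_pos_left N hD0) tendsto_id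
  refine htend.frequently ((h4.and_eventually ((scale_log C D hD0).and
    (eventually_ge_atTop (c + W * X)))).mono ?_)
  rintro N ⟨hN1, hN2, hN3⟩ h hh
  obtain ⟨a, ha1, ha2, ha3⟩ := hN1 h hh
  refine (hN2.trans ha3).trans ?_
  rw [Nat.cast_le]
  have hval : ∀ (n : ℕ) (i : Fin (k + 1)), ((Φ (a i)).1 * (n : ℤ) + (Φ (a i)).2).toNat =
      M * n + (c + W * a i) := by
    intro n i
    have e : (Φ (a i)).1 * (n : ℤ) + (Φ (a i)).2 = ((M * n + (c + W * a i) : ℕ) : ℤ) := by
      show (M : ℤ) * (n : ℤ) + ((c + W * a i : ℕ) : ℤ) = _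
      push_cast
      ring
    rw [e, Int.toNat_natCast]
  have hmod : ∀ (n : ℕ) (i : Fin (k + 1)), (M * n + (c + W * a i)) % M = c % M := by
    intro n i
    obtain ⟨t, ht⟩ := hMW
    rw [ht]
    have e : M * n + (c + M * t * a i) = c + M * (n + t * a i) := by ring
    rw [e, Nat.add_mul_mod_self_left]
  refine Set.ncard_le_ncard_of_injOn (fun n => M * n + (c + W * a 0)) ?_ ?_
    ((Set.finite_Iic (D * N)).subset fun p hp => hp.1)
  · rintro n ⟨hn1, hn2⟩
    simp only [hval] at hn2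
    refine ⟨?_, hn2 0, hmod n 0, fun i => ⟨M * n + (c + W * a i.succ), hn2 i.succ,
      hmod n i.succ, ?_⟩⟩
    · show M * n + (c + W * a 0) ≤ D * N
      have e1 : M * n ≤ M * N := Nat.mul_le_mul_left _ hn1
      have e2 : W * a 0 ≤ W * X := Nat.mul_le_mul_left _ (ha1 0)
      have e3 : N ≤ M * N := Nat.le_mul_of_pos_left N hM
      have e4 : D * N = M * N + M * N := by rw [hD]; ring
      omega
    · rw [← ha2 i]
      push_cast
      ring
  · intro n _ n' _ hnn
    have e : M * n + (c + W * a 0) = M * n' + (c + W * a 0) := hnn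
    have e2 : M * n = M * n' := by omega
    exact Nat.eq_of_mul_eq_mul_left hM e2

end Pool.Agent.V11161.BH
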