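import Mathlib
import Pool.Agent.Y687.K4.MainT

set_option autoImplicit false

/-!
# The Rédei type matrix of a twist of `X_0(14)` does not change on multiplication by inert primes
-/

namespace Pool.Agent.V11161.BH

open Finset
open Pool.Agent.Y687 (qs DD InertT DD_natAbs DD_sqf DD_mod qs_natAbs qs_mod)

/-- the split primes of `D` -/
def spl (D : ℤ) : Finset ℕ := D.natAbs.primeFactors.filter fun p => p % 8 = 1

/-- the class of the twists -/
def Adm14 (D : ℤ) : Prop := Squarefree D ∧ D % 4 = 1 ∧ (D % 7 = 1 ∨ D % 7 = 2 ∨ D % 7 = 4) ∧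
  ∀ p : ℕ, p.Prime → (p : ℤ) ∣ D → p ≠ 3 ∧
    ((p.Prime ∧ p % 8 = 1 ∧ (p % 7 = 1 ∨ p % 7 = 2 ∨ p % 7 = 4)) ∨ InertT p)

open Classical in
/-- the entries of the matrix; `g` is the part of the diagonal which does not depend on `D` -/
noncomputable def ent (g : ℕ → ZMod 2) (D : ℤ) (i j : ℕ) : ZMod 2 :=
  if i = j then
    (((D.natAbs.primeFactors.filter fun r : ℕ => r ≠ i ∧ ¬ IsSquare (r : ZMod i)).card : ZMod 2) +
      g i)
  else if IsSquare ((j : ℕ) : ZMod i) then 0 else 1

theorem det_transport {s t : Finset ℕ} (h : s = t) (f g : ℕ → ℕ → ZMod 2)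
    (hfg : ∀ i ∈ t, ∀ j ∈ t, f i j = g i j) :
    (Matrix.of fun i j : s => f i j).det = (Matrix.of fun i j : t => g i j).det := by
  subst h
  congr 1
  ext i j
  exact hfg i.1 i.2 j.1 j.2

theorem primeFactors_mul_DD {M : ℤ} {S : Finset ℕ} (hM : M ≠ 0) (hS : ∀ q ∈ S, InertT q) :
    (M * DD S).natAbs.primeFactors = M.natAbs.primeFactors ∪ S := by
  rw [Int.natAbs_mul, DD_natAbs, Nat.primeFactors_mul (Int.natAbs_ne_zero.2 hM)
    (Finset.prod_ne_zero_iff.2 fun q hq => (hS q hq).1.ne_zero),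
    Nat.primeFactors_prod fun q hq => (hS q hq).1]

theorem spl_mul_DD {M : ℤ} {S : Finset ℕ} (hM : M ≠ 0) (hS : ∀ q ∈ S, InertT q) :
    spl (M * DD S) = spl M := by
  unfold spl
  rw [primeFactors_mul_DD hM hS, filter_union]
  have h : S.filter (fun p => p % 8 = 1) = ∅ := by
    rw [filter_eq_empty_iff]
    intro q hq h1
    have := (hS q hq).2.1
    omega
  rw [h, union_empty]

open Classical in
theorem det_mul_DD (g : ℕ → ZMod 2) {M : ℤ} {S : Finset ℕ} (hM : M ≠ 0)
    (hS : ∀ q ∈ S, InertT q) (hMS : ∀ q ∈ S, ¬ (q : ℤ) ∣ M)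
    (hc : ∀ p ∈ spl M, Even (S.filter fun q : ℕ => ¬ IsSquare (q : ZMod p)).card) :
    (Matrix.of fun i j : spl (M * DD S) => ent g (M * DD S) i j).det =
      (Matrix.of fun i j : spl M => ent g M i j).det := by
  refine det_transport (spl_mul_DD hM hS) _ _ fun i hi j _ => ?_
  unfold ent
  by_cases hij : i = j
  · rw [if_pos hij, if_pos hij]
    congr 1
    have hiM : i ∣ M.natAbs := Nat.dvd_of_mem_primeFactors (mem_filter.1 hi).1
    have hdisj : Disjoint M.natAbs.primeFactors S := by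
      rw [Finset.disjoint_left]
      intro q hq hqS
      exact hMS q hqS (Int.natCast_dvd.2 (Nat.dvd_of_mem_primeFactors hq))
    rw [primeFactors_mul_DD hM hS, filter_union,
      card_union_of_disjoint (disjoint_filter_filter hdisj)]
    have e : S.filter (fun r : ℕ => r ≠ i ∧ ¬ IsSquare (r : ZMod i)) =
        S.filter (fun q : ℕ => ¬ IsSquare (q : ZMod i)) := by
      refine filter_congr fun q hq => ?_
      constructor
      · exact fun h => h.2
      · refine fun h => ⟨?_, h⟩
        rintro rfl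
        exact hMS q hq (Int.natCast_dvd.2 hiM)
    obtain ⟨t, ht⟩ := hc i hi
    rw [e, ht]
    push_cast
    have h2 : (t : ZMod 2) + t = 0 := by
      rw [← two_mul]
      have : (2 : ZMod 2) = 0 := rfl
      rw [this, zero_mul]
    rw [h2, add_zero]
  · rw [if_neg hij, if_neg hij]

instance fact7 : Fact (Nat.Prime 7) := ⟨by norm_num⟩

theorem leg7 (z : ℤ) : legendreSym 7 z = 1 ↔ (z % 7 = 1 ∨ z % 7 = 2 ∨ z % 7 = 4) := by
  rw [legendreSym.mod]
  have h1 : 0 ≤ z % 7 := Int.emod_nonneg _ (by norm_num)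
  have h2 : z % 7 < 7 := Int.emod_lt_of_pos _ (by norm_num)
  push_cast
  generalize z % 7 = w at h1 h2
  interval_cases w <;> decide

theorem leg7' (z : ℤ) : legendreSym 7 z = -1 ↔ (z % 7 = 3 ∨ z % 7 = 5 ∨ z % 7 = 6) := by
  rw [legendreSym.mod]
  have h1 : 0 ≤ z % 7 := Int.emod_nonneg _ (by norm_num)
  have h2 : z % 7 < 7 := Int.emod_lt_of_pos _ (by norm_num)
  push_cast
  generalize z % 7 = w at h1 h2
  interval_cases w <;> decide

theorem leg_DD {S : Finset ℕ} (hS : ∀ q ∈ S, InertT q) :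
    legendreSym 7 (DD S) = (-1) ^ (S.filter fun q => q % 8 = 5).card := by
  classical
  induction S using Finset.induction_on with
  | empty => unfold DD; simp
  | insert a S ha ih =>
    have e : DD (insert a S) = qs a * DD S := by
      unfold DD
      exact prod_insert ha
    have hI := hS a (mem_insert_self a S)
    rw [e, legendreSym.mul, ih fun q hq => hS q (mem_insert_of_mem hq), filter_insert]
    have h8 := hI.2.1
    have h7 := hI.2.2
    by_cases h5 : a % 8 = 5
    · rw [if_pos h5, card_insert_of_notMem (fun h => ha (mem_filter.1 h).1), pow_succ]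
      have e1 : qs a = a := by
        unfold qs
        rw [if_pos (by omega)]
      have e2 : legendreSym 7 (qs a) = -1 := by
        rw [e1, leg7']
        omega
      rw [e2, mul_comm]
    · rw [if_neg h5]
      have e1 : qs a = -a := by
        unfold qs
        rw [if_neg (by omega)]
      have e2 : legendreSym 7 (qs a) = 1 := by
        rw [e1, leg7]
        omega
      rw [e2, one_mul]

theorem adm_mul_DD {M : ℤ} {S : Finset ℕ} (hM : Adm14 M) (hS : ∀ q ∈ S, InertT q)
    (h3 : ∀ q ∈ S, q ≠ 3) (hMS : ∀ q ∈ S, ¬ (q : ℤ) ∣ M)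
    (h5 : Even (S.filter fun q => q % 8 = 5).card) : Adm14 (M * DD S) := by
  obtain ⟨m1, m2, m3, m4⟩ := hM
  have hodd : ∀ q ∈ S, q % 2 = 1 := by
    intro q hq
    have := (hS q hq).2.1
    omega
  refine ⟨?_, ?_, ?_, ?_⟩
  · rw [← Int.squarefree_natAbs, Int.natAbs_mul, Nat.squarefree_mul_iff]
    refine ⟨?_, Int.squarefree_natAbs.2 m1, Int.squarefree_natAbs.2 (DD_sqf hS)⟩
    rw [DD_natAbs]
    refine Nat.Coprime.prod_right fun q hq => ?_
    rw [Nat.coprime_comm, (hS q hq).1.coprime_iff_not_dvd]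
    exact fun h => hMS q hq (Int.natCast_dvd.2 h)
  · have := DD_mod hodd
    rw [Int.mul_emod, m2, this]
    norm_num
  · rw [← leg7, legendreSym.mul, leg_DD hS, (leg7 M).2 m3, h5.neg_one_pow, one_mul]
  · intro p hp hpd
    rcases Int.Prime.dvd_mul' hp hpd with h | h
    · exact m4 p hp h
    · have h1 : p ∈ S := by
        have h2 : p ∣ ∏ q ∈ S, q := by
          rw [← DD_natAbs]
          exact Int.natCast_dvd.1 h
        obtain ⟨q, hq, hpq⟩ := (Prime.dvd_finset_prod_iff hp.prime _).1 h2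
        rw [(Nat.prime_dvd_prime_iff_eq hp (hS q hq).1).1 hpq]
        exact hq
      exact ⟨h3 p h1, Or.inr (hS p h1)⟩

end Pool.Agent.V11161.BH
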