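import Mathlib
import Pool.Agent.V11161.BH.Par
import Pool.Agent.V11161.BH.APU

set_option autoImplicit false

/-!
# Products over clusters of inert primes: the class and the matrix
-/

namespace Pool.Agent.V11161.BH

open Finset
open Pool.Agent.Y687 (qs DD InertT DD_natAbs DD_sqf DD_mod qs_natAbs qs_mod)

/-- `x* = ± x`, congruent to `1` modulo `4` for odd `x` -/
def str (x : ℤ) : ℤ := if x % 4 = 1 then x else -x

/-- the product of the `x*` over the members of the cluster with indices in `J` -/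
def cprod {k : ℕ} (W : ℕ) (h : Fin k → ℤ) (p : ℕ) (J : Finset (Fin (k + 1))) : ℤ :=
  ∏ i ∈ J, str ((Fin.cons (p : ℤ) fun i => (p : ℤ) + W * h i : Fin (k + 1) → ℤ) i)

open Classical in
theorem cluster_par {k : ℕ} {M : ℤ} (hM : Adm14 M) {c W : ℕ} (hcop : c.Coprime (168 * M.natAbs))
    (hc8 : c % 8 = 3 ∨ c % 8 = 5) (hc7 : c % 7 = 3 ∨ c % 7 = 5 ∨ c % 7 = 6)
    {h : Fin k → ℤ} (hh0 : ∀ i, h i ≠ 0) (hinj : Function.Injective h) (hW : 0 < W)
    {N p : ℕ} (hp : p ∈ classPrimes (168 * M.natAbs) c W h N) {J : Finset (Fin (k + 1))}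
    (hJ : J.Nonempty) (hal : Even J.card ∨ (c % 8 = 3 ∧
      ∀ l : ℕ, l.Prime → (l : ℤ) ∣ M → l % 8 = 1 → IsSquare (c : ZMod l))) (g : ℕ → ZMod 2) :
    Adm14 (M * cprod W h p J) ∧ M * cprod W h p J ≠ 1 ∧
      (Matrix.of fun i j : spl (M * cprod W h p J) => ent g (M * cprod W h p J) i j).det =
        (Matrix.of fun i j : spl M => ent g M i j).det := by
  obtain ⟨-, h2, h3, h4⟩ := hp
  have hM0 : M ≠ 0 := hM.1.ne_zero
  have hMn : 0 < M.natAbs := Int.natAbs_pos.2 hM0
  have hmod : ∀ q : ℕ, q.Prime → q % (168 * M.natAbs) = c % (168 * M.natAbs) →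
      InertT q ∧ q ≠ 3 ∧ ¬ (q : ℤ) ∣ M ∧ q % 8 = c % 8 ∧
        ∀ l : ℕ, (l : ℤ) ∣ M → (q : ZMod l) = (c : ZMod l) := by
    intro q hq hqc
    have e1 : q ≡ c [MOD 168 * M.natAbs] := hqc
    have e2 : q ≡ c [MOD 168] := e1.of_dvd (Dvd.intro _ rfl)
    have e3 : q ≡ c [MOD M.natAbs] := e1.of_dvd (Dvd.intro_left _ rfl)
    have e4 : q % 168 = c % 168 := e2
    have hqcop : q.Coprime (168 * M.natAbs) := by
      rw [Nat.coprime_iff_gcd_eq_one, e1.gcd_eq]
      exact hcop
    refine ⟨⟨hq, by omega, by omega⟩, ?_, ?_, by omega, ?_⟩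
    · rintro rfl
      have h5 : (3 : ℕ).Coprime 168 := Nat.Coprime.coprime_mul_right_right hqcop
      revert h5
      decide
    · intro hd
      have h5 : q ∣ M.natAbs := Int.natCast_dvd.1 hd
      have h6 : q.Coprime M.natAbs := Nat.Coprime.coprime_mul_left_right hqcop
      exact (hq.coprime_iff_not_dvd.1 h6) h5
    · intro l hl
      have h5 : l ∣ M.natAbs := Int.natCast_dvd.1 hl
      exact (ZMod.natCast_eq_natCast_iff _ _ _).2 (e3.of_dvd h5)
  choose q hq1 hq2 hq3 using h4
  set r : Fin (k + 1) → ℕ := Fin.cons p q with hr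
  have hW' : (W : ℤ) ≠ 0 := by exact_mod_cast hW.ne'
  have hrP : ∀ i, (r i).Prime ∧ r i % (168 * M.natAbs) = c % (168 * M.natAbs) := by
    intro i
    refine Fin.cases ?_ (fun j => ?_) i
    · exact ⟨h2, h3⟩
    · exact ⟨hq1 j, hq2 j⟩
  have hrinj : Function.Injective r := by
    intro i j
    refine Fin.cases ?_ (fun i' => ?_) i <;> refine Fin.cases ?_ (fun j' => ?_) j
    · intro _; rfl
    · intro hij
      exfalso
      have e : p = q j' := hij
      have e2 := hq3 j'
      rw [← e] at e2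
      have e3 : (W : ℤ) * h j' = 0 := by linarith
      rcases mul_eq_zero.1 e3 with e4 | e4
      · exact hW' e4
      · exact hh0 j' e4
    · intro hij
      exfalso
      have e : q i' = p := hij
      have e2 := hq3 i'
      rw [e] at e2
      have e3 : (W : ℤ) * h i' = 0 := by linarith
      rcases mul_eq_zero.1 e3 with e4 | e4
      · exact hW' e4
      · exact hh0 i' e4
    · intro hij
      have e : q i' = q j' := hij
      have e2 := hq3 i'
      have e3 := hq3 j'
      rw [e] at e2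
      have e4 : (W : ℤ) * h i' = W * h j' := by linarith
      rw [hinj (mul_left_cancel₀ hW' e4)]
  have hs : ∀ x : ℕ, str (x : ℤ) = qs x := by
    intro x
    unfold str qs
    by_cases hx : x % 4 = 1
    · have hx' : (x : ℤ) % 4 = 1 := by omega
      rw [if_pos hx, if_pos hx']
    · have hx' : ¬ (x : ℤ) % 4 = 1 := by omega
      rw [if_neg hx, if_neg hx']
  have hd : ∀ i, (Fin.cons (p : ℤ) fun i => (p : ℤ) + W * h i : Fin (k + 1) → ℤ) i = (r i : ℤ) := by
    intro i
    refine Fin.cases ?_ (fun j => ?_) i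
    · rfl
    · exact (hq3 j).symm
  set S : Finset ℕ := J.image r with hS
  have hcard : S.card = J.card := card_image_of_injective _ hrinj
  have hprod : cprod W h p J = DD S := by
    unfold cprod DD
    rw [hS, prod_image fun a _ b _ h => hrinj h]
    refine prod_congr rfl fun i _ => ?_
    rw [hd i, hs]
  have hSall : ∀ q ∈ S, InertT q ∧ q ≠ 3 ∧ ¬ (q : ℤ) ∣ M ∧ q % 8 = c % 8 ∧
      ∀ l : ℕ, (l : ℤ) ∣ M → (q : ZMod l) = (c : ZMod l) := by
    intro q hq
    obtain ⟨i, -, rfl⟩ := mem_image.1 hq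
    exact hmod _ (hrP i).1 (hrP i).2
  rw [hprod]
  have hI : ∀ q ∈ S, InertT q := fun q hq => (hSall q hq).1
  refine ⟨adm_mul_DD hM hI (fun q hq => (hSall q hq).2.1) (fun q hq => (hSall q hq).2.2.1) ?_, ?_,
    det_mul_DD g hM0 hI (fun q hq => (hSall q hq).2.2.1) fun l hl => ?_⟩
  · rcases hc8 with hc8 | hc8
    · have e : S.filter (fun q => q % 8 = 5) = ∅ := by
        rw [filter_eq_empty_iff]
        intro q hq h5
        have := (hSall q hq).2.2.2.1
        omega
      rw [e, card_empty]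
      exact Even.zero
    · have e : S.filter (fun q => q % 8 = 5) = S := by
        rw [filter_eq_self]
        intro q hq
        have := (hSall q hq).2.2.2.1
        omega
      rw [e, hcard]
      rcases hal with hal | ⟨hal, -⟩
      · exact hal
      · omega
  · intro h1
    obtain ⟨i, hi⟩ := hJ
    have h5 : r i ∣ (M * DD S).natAbs := by
      rw [Int.natAbs_mul, DD_natAbs]
      exact (dvd_prod_of_mem _ (mem_image_of_mem r hi)).mul_left _
    rw [h1, Int.natAbs_one] at h5
    exact (hrP i).1.one_lt.ne' (Nat.dvd_one.1 h5)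
  · have hlM : (l : ℤ) ∣ M := Int.natCast_dvd.2 (Nat.dvd_of_mem_primeFactors (mem_filter.1 hl).1)
    have hlp : l.Prime := Nat.prime_of_mem_primeFactors (mem_filter.1 hl).1
    by_cases hsq : IsSquare (c : ZMod l)
    · have e : S.filter (fun q : ℕ => ¬ IsSquare (q : ZMod l)) = ∅ := by
        rw [filter_eq_empty_iff]
        intro q hq h5
        rw [(hSall q hq).2.2.2.2 l hlM] at h5
        exact h5 hsq
      rw [e, card_empty]
      exact Even.zero
    · have e : S.filter (fun q : ℕ => ¬ IsSquare (q : ZMod l)) = S := by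
        rw [filter_eq_self]
        intro q hq
        rw [(hSall q hq).2.2.2.2 l hlM]
        exact hsq
      rw [e, hcard]
      rcases hal with hal | ⟨-, hal⟩
      · exact hal
      · exact absurd (hal l hlp hlM (mem_filter.1 hl).2) hsq

end Pool.Agent.V11161.BH
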