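import Mathlib
import Pool.Agent.V11161.BH.ParC

set_option autoImplicit false

/-!
# Products over clusters of inert primes which are also inert in the cyclotomic `ℤ₃`-extension
-/

namespace Pool.Agent.V11161.BH

open Finset

theorem classPrimes_dvd {k M P c W : ℕ} (hMP : M ∣ P) (h : Fin k → ℤ) (N : ℕ) :
    classPrimes P c W h N ⊆ classPrimes M c W h N := by
  have key : ∀ q : ℕ, q % P = c % P → q % M = c % M := fun q hq => Nat.ModEq.of_dvd hMP hq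
  rintro p ⟨h1, h2, h3, h4⟩
  refine ⟨h1, h2, key p h3, fun i => ?_⟩
  obtain ⟨q, g1, g2, g3⟩ := h4 i
  exact ⟨q, g1, key q g2, g3⟩

/-- the prime divisors of the products are in the class -/
theorem prime_dvd_cprod {k m c W N p : ℕ} {h : Fin k → ℤ} (hp : p ∈ classPrimes m c W h N)
    {J : Finset (Fin (k + 1))} {l : ℕ} (hl : l.Prime) (hd : (l : ℤ) ∣ cprod W h p J) :
    l % m = c % m := by
  obtain ⟨-, h2, h3, h4⟩ := hp
  have hl' : Prime (l : ℤ) := Nat.prime_iff_prime_int.1 hl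
  unfold cprod at hd
  obtain ⟨i, -, hi⟩ := (hl'.dvd_finsetProd_iff _).1 hd
  have hi' : (l : ℤ) ∣ (Fin.cons (p : ℤ) fun i => (p : ℤ) + W * h i : Fin (k + 1) → ℤ) i := by
    unfold str at hi
    split_ifs at hi
    · exact hi
    · exact (dvd_neg.1 hi)
  revert hi'
  refine Fin.cases ?_ (fun j => ?_) i
  · intro hi'
    have e : (l : ℤ) ∣ (p : ℤ) := hi'
    rw [(Nat.prime_dvd_prime_iff_eq hl h2).1 (Int.natCast_dvd_natCast.1 e)]
    exact h3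
  · intro hi'
    obtain ⟨q, g1, g2, g3⟩ := h4 j
    have e : (l : ℤ) ∣ (q : ℤ) := by
      rw [g3]
      exact hi'
    rw [(Nat.prime_dvd_prime_iff_eq hl g1).1 (Int.natCast_dvd_natCast.1 e)]
    exact g2

open Classical in
theorem cluster_par9 {k : ℕ} {M : ℤ} (hM : Adm14 M)
    (hM9 : ∀ l : ℕ, l.Prime → (l : ℤ) ∣ M → (l % 9 = 2 ∨ l % 9 = 4 ∨ l % 9 = 5 ∨ l % 9 = 7))
    {c W : ℕ} (hcop : c.Coprime (504 * M.natAbs))
    (hc8 : c % 8 = 3 ∨ c % 8 = 5) (hc7 : c % 7 = 3 ∨ c % 7 = 5 ∨ c % 7 = 6)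
    (hc9 : c % 9 = 2 ∨ c % 9 = 4 ∨ c % 9 = 5 ∨ c % 9 = 7)
    {h : Fin k → ℤ} (hh0 : ∀ i, h i ≠ 0) (hinj : Function.Injective h) (hW : 0 < W)
    {N p : ℕ} (hp : p ∈ classPrimes (504 * M.natAbs) c W h N) {J : Finset (Fin (k + 1))}
    (hJ : J.Nonempty) (hal : Even J.card ∨ (c % 8 = 3 ∧
      ∀ l : ℕ, l.Prime → (l : ℤ) ∣ M → l % 8 = 1 → IsSquare (c : ZMod l))) (g : ℕ → ZMod 2) :
    Adm14 (M * cprod W h p J) ∧ M * cprod W h p J ≠ 1 ∧
      (Matrix.of fun i j : spl (M * cprod W h p J) => ent g (M * cprod W h p J) i j).det =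
        (Matrix.of fun i j : spl M => ent g M i j).det ∧
      ∀ l : ℕ, l.Prime → (l : ℤ) ∣ M * cprod W h p J →
        (l % 9 = 2 ∨ l % 9 = 4 ∨ l % 9 = 5 ∨ l % 9 = 7) := by
  have hd : 168 * M.natAbs ∣ 504 * M.natAbs := ⟨3, by ring⟩
  obtain ⟨h1, h2, h3⟩ := cluster_par hM (Nat.Coprime.coprime_dvd_right hd hcop) hc8 hc7 hh0 hinj hW
    (classPrimes_dvd hd h N hp) hJ hal g
  refine ⟨h1, h2, h3, fun l hl hlD => ?_⟩
  have hl' : Prime (l : ℤ) := Nat.prime_iff_prime_int.1 hl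
  rcases hl'.dvd_or_dvd hlD with h5 | h5
  · exact hM9 l hl h5
  · have e1 : l ≡ c [MOD 504 * M.natAbs] := prime_dvd_cprod hp hl h5
    have e2 : l % 9 = c % 9 := e1.of_dvd ⟨56 * M.natAbs, by ring⟩
    omega

end Pool.Agent.V11161.BH
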