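import Mathlib
import Pool.Agent.Results.MP_009fd8_ag.LayersProducts
import Pool.Agent.V11161.BH.ParZ

set_option autoImplicit false

/-!
# Clusters of inert primes and the twists over the layers of the cyclotomic `ℤ₃`-extension
-/

namespace Pool.Agent.V11161.BH

open Finset

open Pool.Agent.Results.MP_787500_nt.LayersBlochKatoLaw (Adm Small R P1 pts E adm_iff mat_eq small_iff)

open Pool.Agent.Results.MP_0b9e0b_ag.MultiquadraticProducts (IsBase)

open Pool.Agent.Results.MP_009fd8_ag.LayersProducts (Good)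

/-- the numbers `p_0*, …, p_k*` of a cluster -/
noncomputable def sset {k : ℕ} (W : ℕ) (h : Fin k → ℤ) (p : ℕ) : Finset ℤ :=
  (univ : Finset (Fin (k + 1))).image fun i =>
    str ((Fin.cons (p : ℤ) fun i => (p : ℤ) + W * h i : Fin (k + 1) → ℤ) i)

lemma det_instG {n : Type} [Fintype n] (d₁ d₂ : DecidableEq n) (A : Matrix n n (ZMod 2)) :
    @Matrix.det n d₁ _ (ZMod 2) _ A = @Matrix.det n d₂ _ (ZMod 2) _ A := by
  rw [Subsingleton.elim d₁ d₂]

open Classical in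
/-- the determinant of `R D` in terms of the entries -/
lemma det_RG (D : ℤ) : (R D).det = (Matrix.of fun i j : spl D =>
    ent (fun i => if 8 ∣ pts E (ZMod i) + 1 then 0 else 1) D i j).det := by
  have e : R D = (Matrix.of fun i j : spl D =>
    ent (fun i => if 8 ∣ pts E (ZMod i) + 1 then 0 else 1) D i j) := by
    ext i j
    unfold R ent
    simp only [Matrix.of_apply]
    by_cases hij : i = j
    · rw [if_pos hij, if_pos (congrArg Subtype.val hij)]
    · rw [if_neg hij, if_neg (fun h => hij (Subtype.ext h))]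
  rw [e]
  exact det_instG _ _ _

/-- one vertex of the cube -/
theorem vertex {k : ℕ} {M : ℤ} (hM : Adm M) {c W : ℕ} (hcop : c.Coprime (504 * M.natAbs))
    (hc8 : c % 8 = 3 ∨ c % 8 = 5) (hc7 : c % 7 = 3 ∨ c % 7 = 5 ∨ c % 7 = 6)
    (hc9 : c % 9 = 2 ∨ c % 9 = 4 ∨ c % 9 = 5 ∨ c % 9 = 7)
    {h : Fin k → ℤ} (hh0 : ∀ i, h i ≠ 0) (hinj : Function.Injective h) (hW : 0 < W)
    {N p : ℕ} (hp : p ∈ classPrimes (504 * M.natAbs) c W h N) {J : Finset (Fin (k + 1))}
    (hJ : J.Nonempty) (hal : Even J.card ∨ (c % 8 = 3 ∧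
      ∀ l : ℕ, l.Prime → (l : ℤ) ∣ M → l % 8 = 1 → IsSquare (c : ZMod l))) :
    Adm (M * cprod W h p J) ∧ M * cprod W h p J ≠ 1 ∧
      (Small (M * cprod W h p J) ↔ Small M) := by
  have hM' := (adm_iff M).1 hM
  have hA : Adm14 M := hM'.1
  obtain ⟨g1, g2, g3, g4⟩ := cluster_par9 hA hM'.2 hcop hc8 hc7 hc9 hh0 hinj hW hp hJ hal
    (fun i => if 8 ∣ pts E (ZMod i) + 1 then 0 else 1)
  have hD : Adm (M * cprod W h p J) := (adm_iff _).2 ⟨g1, g4⟩
  refine ⟨hD, g2, ?_⟩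
  rw [small_iff _ hD, small_iff _ hM, det_RG, det_RG, g3]

theorem adm_one : Adm 1 := by
  refine ⟨squarefree_one, by norm_num, Or.inl (by norm_num), fun p hp hp1 => ?_⟩
  exfalso
  have h3 : (p : ℤ) ∣ ((1 : ℕ) : ℤ) := hp1
  exact hp.one_lt.ne' (Nat.dvd_one.1 (Int.natCast_dvd_natCast.1 h3))

/-- clusters of primes `3` modulo `8`: `S = {p_0*, …, p_k*}` -/
theorem cluster_good {k : ℕ} {T : Finset ℤ} (hT : ∀ M ∈ T, Adm M) {P c W : ℕ}
    (hP : 504 ∣ P) (hPT : ∀ M ∈ T, 504 * M.natAbs ∣ P) (hcop : c.Coprime P) (hc8 : c % 8 = 3)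
    (hc7 : c % 7 = 3 ∨ c % 7 = 5 ∨ c % 7 = 6)
    (hc9 : c % 9 = 2 ∨ c % 9 = 4 ∨ c % 9 = 5 ∨ c % 9 = 7)
    (hsq : ∀ M ∈ T, ∀ l : ℕ, l.Prime → (l : ℤ) ∣ M → l % 8 = 1 → IsSquare (c : ZMod l))
    {h : Fin k → ℤ} (hh0 : ∀ i, h i ≠ 0) (hinj : Function.Injective h) (hW : 0 < W)
    {N p : ℕ} (hp : p ∈ classPrimes P c W h N) :
    (sset W h p).card = k + 1 ∧ IsBase (sset W h p) ∧ (Good T (sset W h p) ↔ ∀ M ∈ T, Small M) ∧
      ∀ M ∈ T, ∀ U ⊆ sset W h p, Adm (M * ∏ d ∈ U, d) ∧ (Small (M * ∏ d ∈ U, d) ↔ Small M) := by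
  classical
  set s : Fin (k + 1) → ℤ := fun i =>
    str ((Fin.cons (p : ℤ) fun i => (p : ℤ) + W * h i : Fin (k + 1) → ℤ) i) with hs
  have hcprod : ∀ J : Finset (Fin (k + 1)), cprod W h p J = ∏ i ∈ J, s i := fun J => rfl
  -- the case `M = 1`
  have hone : ∀ J : Finset (Fin (k + 1)), J.Nonempty →
      Adm (∏ i ∈ J, s i) ∧ ∏ i ∈ J, s i ≠ 1 := by
    intro J hJ
    have hd : 504 * (1 : ℤ).natAbs ∣ P := by
      rw [Int.natAbs_one, mul_one]
      exact hP
    obtain ⟨g1, g2, -⟩ := vertex adm_one (Nat.Coprime.coprime_dvd_right hd hcop) (Or.inl hc8) hc7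
      hc9 hh0 hinj hW (classPrimes_dvd hd h N hp) hJ (Or.inr ⟨hc8, fun l hl h1 => by
        exfalso
        have h3 : (l : ℤ) ∣ ((1 : ℕ) : ℤ) := h1
        exact hl.one_lt.ne' (Nat.dvd_one.1 (Int.natCast_dvd_natCast.1 h3))⟩)
    rw [one_mul] at g1 g2
    exact ⟨g1, g2⟩
  have hsinj : Function.Injective s := by
    intro i j hij
    by_contra hne
    have h1 := (hone {i, j} ⟨i, mem_insert_self _ _⟩).1.1
    rw [prod_pair hne, hij] at h1
    have h2 : IsUnit (s j) := h1 _ dvd_rfl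
    have h3 := (hone {j} (singleton_nonempty j))
    rw [prod_singleton] at h3
    have h4 : s j = 1 ∨ s j = -1 := Int.isUnit_iff.1 h2
    rcases h4 with h4 | h4
    · exact h3.2 h4
    · have := h3.1.2.1
      rw [h4] at this
      revert this
      decide
  have hSs : sset W h p = univ.image s := rfl
  have hU : ∀ U ⊆ sset W h p, ∃ J : Finset (Fin (k + 1)), ∏ d ∈ U, d = ∏ i ∈ J, s i ∧
      (U.Nonempty → J.Nonempty) := by
    intro U hU
    refine ⟨univ.filter fun i => s i ∈ U, ?_, fun ⟨d, hd⟩ => ?_⟩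
    · have e : U = (univ.filter fun i => s i ∈ U).image s := by
        ext d
        rw [mem_image]
        constructor
        · intro hd
          have h1 := hU hd
          rw [hSs, mem_image] at h1
          obtain ⟨i, -, hi⟩ := h1
          exact ⟨i, mem_filter.2 ⟨mem_univ _, by rw [hi]; exact hd⟩, hi⟩
        · rintro ⟨i, hi, rfl⟩
          exact (mem_filter.1 hi).2
      conv_lhs => rw [e]
      rw [prod_image fun i _ j _ h => hsinj h]
    · have h1 := hU hd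
      rw [hSs, mem_image] at h1
      obtain ⟨i, -, hi⟩ := h1
      exact ⟨i, mem_filter.2 ⟨mem_univ _, by rw [hi]; exact hd⟩⟩
  have hall : ∀ M ∈ T, ∀ U ⊆ sset W h p, Adm (M * ∏ d ∈ U, d) ∧
      (Small (M * ∏ d ∈ U, d) ↔ Small M) := by
    intro M hM U hUS
    obtain ⟨J, e, -⟩ := hU U hUS
    rw [e]
    rcases J.eq_empty_or_nonempty with rfl | hJ
    · rw [prod_empty, mul_one]
      exact ⟨hT M hM, Iff.rfl⟩
    · obtain ⟨g1, -, g3⟩ := vertex (hT M hM) (Nat.Coprime.coprime_dvd_right (hPT M hM) hcop)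
        (Or.inl hc8) hc7 hc9 hh0 hinj hW (classPrimes_dvd (hPT M hM) h N hp) hJ
        (Or.inr ⟨hc8, hsq M hM⟩)
      exact ⟨g1, g3⟩
  refine ⟨?_, ⟨fun d hd => ?_, fun U hUS hne hsqr => ?_⟩, ⟨fun hg M hM => ?_, fun hsm => ?_⟩, hall⟩
  · rw [hSs, card_image_of_injective _ hsinj, card_univ, Fintype.card_fin]
  · rw [hSs, mem_image] at hd
    obtain ⟨i, -, rfl⟩ := hd
    have := (hone {i} (singleton_nonempty i)).1
    rwa [prod_singleton] at this
  · obtain ⟨J, e, hJ⟩ := hU U hUS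
    obtain ⟨g1, g2⟩ := hone J (hJ hne)
    rw [e] at hsqr
    obtain ⟨z, hz⟩ := hsqr
    have h1 : IsUnit z := g1.1 z (by rw [hz])
    have h2 : z * z = 1 := by
      rcases Int.isUnit_iff.1 h1 with h2 | h2 <;> rw [h2] <;> norm_num
    exact g2 (hz.trans h2)
  · refine hg.2 M hM ∅ (empty_subset _) M 1 (hT M hM) ?_
    rw [prod_empty]
    ring
  · refine ⟨hT, fun M hM U hUS D' z hD' hz => ?_⟩
    obtain ⟨g1, g2⟩ := hall M hM U hUS
    have h1 : IsUnit z := g1.1 z (by rw [hz]; exact ⟨D', by ring⟩)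
    have h2 : z ^ 2 = 1 := by
      rcases Int.isUnit_iff.1 h1 with h2 | h2 <;> rw [h2] <;> norm_num
    have h3 : D' = M * ∏ d ∈ U, d := by rw [hz, h2, mul_one]
    rw [h3]
    exact g2.2 (hsm M hM)

end Pool.Agent.V11161.BH
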