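import Mathlib
import Pool.Agent.V11161.BH.ParG

set_option autoImplicit false

/-!
# Clusters of inert primes added to an arbitrary base
-/

namespace Pool.Agent.V11161.BH

open Finset

open Pool.Agent.Results.MP_787500_nt.LayersBlochKatoLaw (Adm Small adm_iff)

open Pool.Agent.Results.MP_0b9e0b_ag.MultiquadraticProducts (IsBase)

open Pool.Agent.Results.MP_009fd8_ag.LayersProducts (Good)

/-- squarefree parts are unique -/
theorem sqf_unique {a b x y : ℤ} (ha : Squarefree a) (hb : Squarefree b) (hx : x ≠ 0)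
    (h : a * x ^ 2 = b * y ^ 2) : a = b := by
  have hy : y ≠ 0 := by
    rintro rfl
    have h1 : a * x ^ 2 = 0 := by rw [h]; ring
    rcases mul_eq_zero.1 h1 with h2 | h2
    · exact ha.ne_zero h2
    · exact hx (pow_eq_zero_iff (two_ne_zero) |>.1 h2)
  have hg : 0 < Int.gcd x y := Int.gcd_pos_of_ne_zero_left y hx
  obtain ⟨x', y', hcop, hx', hy'⟩ := Int.exists_gcd_one hg
  have hg0 : ((Int.gcd x y : ℕ) : ℤ) ^ 2 ≠ 0 := pow_ne_zero 2 (by exact_mod_cast hg.ne')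
  have h1 : a * x' ^ 2 = b * y' ^ 2 := by
    refine mul_right_cancel₀ hg0 ?_
    have e1 : a * x' ^ 2 * ((Int.gcd x y : ℕ) : ℤ) ^ 2 = a * x ^ 2 := by
      conv_rhs => rw [hx']
      ring
    have e2 : b * y' ^ 2 * ((Int.gcd x y : ℕ) : ℤ) ^ 2 = b * y ^ 2 := by
      conv_rhs => rw [hy']
      ring
    rw [e1, e2, h]
  have hco : IsCoprime x' y' := Int.isCoprime_iff_gcd_eq_one.2 hcop
  have hux : IsUnit x' := by
    refine hb x' ?_
    have h2 : x' ^ 2 ∣ b * y' ^ 2 := ⟨a, by rw [← h1]; ring⟩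
    have h3 : x' ^ 2 ∣ b := (hco.pow (m := 2) (n := 2)).dvd_of_dvd_mul_right h2
    rwa [sq] at h3
  have huy : IsUnit y' := by
    refine ha y' ?_
    have h2 : y' ^ 2 ∣ a * x' ^ 2 := ⟨b, by rw [h1]; ring⟩
    have h3 : y' ^ 2 ∣ a := (hco.symm.pow (m := 2) (n := 2)).dvd_of_dvd_mul_right h2
    rwa [sq] at h3
  have e1 : x' ^ 2 = 1 := by
    rcases Int.isUnit_iff.1 hux with h2 | h2 <;> rw [h2] <;> norm_num
  have e2 : y' ^ 2 = 1 := by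
    rcases Int.isUnit_iff.1 huy with h2 | h2 <;> rw [h2] <;> norm_num
  rw [e1, e2, mul_one, mul_one] at h1
  exact h1

/-- in the class, prime to the modulus in the sense needed, and with the squares condition -/
def Ok (P c : ℕ) (D : ℤ) : Prop :=
  Adm D ∧ 504 * D.natAbs ∣ P ∧
    ∀ l : ℕ, l.Prime → (l : ℤ) ∣ D → l % 8 = 1 → IsSquare (c : ZMod l)

theorem ok_mul {P c : ℕ} {M : ℤ} {S₀ U : Finset ℤ} (hM : Adm M) (hS₀ : ∀ d ∈ S₀, Adm d)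
    (hP : 504 * (M.natAbs * ∏ d ∈ S₀, d.natAbs) ∣ P)
    (hsM : ∀ l : ℕ, l.Prime → (l : ℤ) ∣ M → l % 8 = 1 → IsSquare (c : ZMod l))
    (hsS : ∀ d ∈ S₀, ∀ l : ℕ, l.Prime → (l : ℤ) ∣ d → l % 8 = 1 → IsSquare (c : ZMod l))
    (hU : U ⊆ S₀) : ∃ D' j : ℤ, Ok P c D' ∧ j ≠ 0 ∧ M * ∏ d ∈ U, d = D' * j ^ 2 := by
  have hM' := (adm_iff M).1 hM
  obtain ⟨C₁, j₁, g1, g2, g3, g4⟩ := Pool.Agent.V11291.JH.prodS (S := U)
    fun d hd => ⟨((adm_iff d).1 (hS₀ d (hU hd))).1, ((adm_iff d).1 (hS₀ d (hU hd))).2⟩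
  obtain ⟨C, j, k1, k2, k3, k4, -⟩ := Pool.Agent.Y682.YS.mulD hM'.1 hM'.2 g1 g2
  have e1 : M * ∏ d ∈ U, d = C * (j * j₁) ^ 2 := by
    rw [g4, ← mul_assoc, k4]
    ring
  have hCd : C ∣ M * ∏ d ∈ U, d := ⟨(j * j₁) ^ 2, e1⟩
  refine ⟨C, j * j₁, ⟨(adm_iff C).2 ⟨k1, k2⟩, ?_, fun l hl hlC h8 => ?_⟩, mul_ne_zero k3 g3, e1⟩
  · refine (Nat.mul_dvd_mul_left 504 ?_).trans hP
    have h1 : C.natAbs ∣ (M * ∏ d ∈ U, d).natAbs := Int.natAbs_dvd_natAbs.2 hCd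
    rw [Int.natAbs_mul] at h1
    refine h1.trans (Nat.mul_dvd_mul_left _ ?_)
    have h2 : (∏ d ∈ U, d).natAbs = ∏ d ∈ U, d.natAbs :=
      map_prod Int.natAbsHom (fun d => d) U
    rw [h2]
    exact prod_dvd_prod_of_subset _ _ _ hU
  · have hl' : Prime (l : ℤ) := Nat.prime_iff_prime_int.1 hl
    rcases hl'.dvd_or_dvd (hlC.trans hCd) with h1 | h1
    · exact hsM l hl h1 h8
    · obtain ⟨d, hd, hd'⟩ := hl'.exists_mem_finset_dvd h1
      exact hsS d (hU hd) l hl hd' h8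

/-- the engine with a base -/
theorem cluster_base {k : ℕ} {T S₀ : Finset ℤ} (hT : ∀ M ∈ T, Adm M) (hS₀ : IsBase S₀) {P c W : ℕ}
    (hP : 504 * ((∏ M ∈ T, M.natAbs) * ∏ d ∈ S₀, d.natAbs) ∣ P) (hcop : c.Coprime P)
    (hc8 : c % 8 = 3) (hc7 : c % 7 = 3 ∨ c % 7 = 5 ∨ c % 7 = 6)
    (hc9 : c % 9 = 2 ∨ c % 9 = 4 ∨ c % 9 = 5 ∨ c % 9 = 7)
    (hsq : ∀ M ∈ T ∪ S₀, ∀ l : ℕ, l.Prime → (l : ℤ) ∣ M → l % 8 = 1 → IsSquare (c : ZMod l))
    {h : Fin k → ℤ} (hh0 : ∀ i, h i ≠ 0) (hinj : Function.Injective h) (hW : 0 < W)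
    {N p : ℕ} (hp : p ∈ classPrimes P c W h N) :
    (S₀ ∪ sset W h p).card = S₀.card + (k + 1) ∧ IsBase (S₀ ∪ sset W h p) ∧
      (∀ U ⊆ sset W h p, ∀ M ∈ T, Adm (M * ∏ d ∈ U, d) ∧
        (Good T S₀ → ∀ V ⊆ S₀ ∪ sset W h p, ∀ D z : ℤ, Adm D →
          (M * ∏ d ∈ U, d) * ∏ d ∈ V, d = D * z ^ 2 → Small D)) ∧
      (Good T (S₀ ∪ sset W h p) ↔ Good T S₀) := by
  classical
  set s : Fin (k + 1) → ℤ := fun i =>
    str ((Fin.cons (p : ℤ) fun i => (p : ℤ) + W * h i : Fin (k + 1) → ℤ) i) with hs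
  -- one vertex
  have hv : ∀ D : ℤ, Ok P c D → ∀ J : Finset (Fin (k + 1)), Adm (D * ∏ i ∈ J, s i) ∧
      (J.Nonempty → D * ∏ i ∈ J, s i ≠ 1) ∧ (Small (D * ∏ i ∈ J, s i) ↔ Small D) := by
    intro D hD J
    rcases J.eq_empty_or_nonempty with rfl | hJ
    · rw [prod_empty, mul_one]
      exact ⟨hD.1, fun h => absurd h not_nonempty_empty, Iff.rfl⟩
    · obtain ⟨g1, g2, g3⟩ := vertex hD.1 (Nat.Coprime.coprime_dvd_right hD.2.1 hcop)
        (Or.inl hc8) hc7 hc9 hh0 hinj hW (classPrimes_dvd hD.2.1 h N hp) hJ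
        (Or.inr ⟨hc8, hD.2.2⟩)
      exact ⟨g1, fun _ => g2, g3⟩
  have h1P : 504 * (1 : ℤ).natAbs ∣ P := by
    rw [Int.natAbs_one, mul_one]
    exact (Dvd.intro _ rfl).trans hP
  have hok1 : Ok P c 1 := ⟨adm_one, h1P, fun l hl h1 => by
    exfalso
    have h3 : (l : ℤ) ∣ ((1 : ℕ) : ℤ) := h1
    exact hl.one_lt.ne' (Nat.dvd_one.1 (Int.natCast_dvd_natCast.1 h3))⟩
  have hone : ∀ J : Finset (Fin (k + 1)), J.Nonempty →
      Adm (∏ i ∈ J, s i) ∧ ∏ i ∈ J, s i ≠ 1 := by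
    intro J hJ
    obtain ⟨g1, g2, -⟩ := hv 1 hok1 J
    have g3 := g2 hJ
    rw [one_mul] at g1 g3
    exact ⟨g1, g3⟩
  have hsne : ∀ i, ¬ IsUnit (s i) := by
    intro i h2
    have h3 := hone {i} (singleton_nonempty i)
    rw [prod_singleton] at h3
    rcases Int.isUnit_iff.1 h2 with h4 | h4
    · exact h3.2 h4
    · have := h3.1.2.1
      rw [h4] at this
      revert this
      decide
  have hsinj : Function.Injective s := by
    intro i j hij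
    by_contra hne
    have h1 := (hone {i, j} ⟨i, mem_insert_self _ _⟩).1.1
    rw [prod_pair hne, hij] at h1
    exact hsne j (h1 _ dvd_rfl)
  have hSs : sset W h p = univ.image s := rfl
  have hU : ∀ U ⊆ sset W h p, ∃ J : Finset (Fin (k + 1)), ∏ d ∈ U, d = ∏ i ∈ J, s i ∧
      (U.Nonempty → J.Nonempty) := by
    intro U hU
    refine ⟨univ.filter fun i => s i ∈ U, ?_, fun ⟨d, hd⟩ => ?_⟩
    · have e : U = (univ.filter fun i => s i ∈ U).image s := by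
        ext d
        rw [mem_image]
        constructor
        · intro hd
          have h1 := hU hd
          rw [hSs, mem_image] at h1
          obtain ⟨i, -, hi⟩ := h1
          exact ⟨i, mem_filter.2 ⟨mem_univ _, by rw [hi]; exact hd⟩, hi⟩
        · rintro ⟨i, hi, rfl⟩
          exact (mem_filter.1 hi).2
      conv_lhs => rw [e]
      rw [prod_image fun i _ j _ h => hsinj h]
    · have h1 := hU hd
      rw [hSs, mem_image] at h1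
      obtain ⟨i, -, hi⟩ := h1
      exact ⟨i, mem_filter.2 ⟨mem_univ _, by rw [hi]; exact hd⟩⟩
  have hTpos : ∀ M ∈ T, M.natAbs ∣ ∏ M ∈ T, M.natAbs := fun M hM => dvd_prod_of_mem _ hM
  have hPM : ∀ M ∈ T, 504 * (M.natAbs * ∏ d ∈ S₀, d.natAbs) ∣ P := fun M hM =>
    (Nat.mul_dvd_mul_left 504 (Nat.mul_dvd_mul_right (hTpos M hM) _)).trans hP
  have hP1 : 504 * ((1 : ℤ).natAbs * ∏ d ∈ S₀, d.natAbs) ∣ P := by
    rw [Int.natAbs_one, one_mul]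
    exact (Nat.mul_dvd_mul_left 504 (Dvd.intro_left _ rfl)).trans hP
  have hsT : ∀ M ∈ T, ∀ l : ℕ, l.Prime → (l : ℤ) ∣ M → l % 8 = 1 → IsSquare (c : ZMod l) :=
    fun M hM => hsq M (mem_union_left _ hM)
  have hsS : ∀ d ∈ S₀, ∀ l : ℕ, l.Prime → (l : ℤ) ∣ d → l % 8 = 1 → IsSquare (c : ZMod l) :=
    fun d hd => hsq d (mem_union_right _ hd)
  have hsplit : ∀ U ⊆ S₀ ∪ sset W h p, ∃ U₀ ⊆ S₀, ∃ U₁ ⊆ sset W h p,
      ∏ d ∈ U, d = (∏ d ∈ U₀, d) * ∏ d ∈ U₁, d ∧ (U₁ = ∅ → U = U₀) := by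
    intro U hU
    refine ⟨U ∩ S₀, inter_subset_right, U \ S₀, fun d hd => ?_, ?_, fun h => ?_⟩
    · obtain ⟨h1, h2⟩ := mem_sdiff.1 hd
      exact (mem_union.1 (hU h1)).resolve_left h2
    · rw [prod_inter_mul_prod_sdiff]
    · have h1 : U ⊆ S₀ := sdiff_eq_empty_iff_subset.1 h
      exact (inter_eq_left.2 h1).symm
  -- the members are not in the base
  have hdisj : Disjoint S₀ (sset W h p) := by
    rw [disjoint_left]
    intro d hd hd2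
    rw [hSs, mem_image] at hd2
    obtain ⟨i, -, hi⟩ := hd2
    have hok : Ok P c d := by
      refine ⟨hS₀.1 d hd, ?_, hsS d hd⟩
      refine (Nat.mul_dvd_mul_left 504 ?_).trans hP
      exact (dvd_prod_of_mem _ hd).trans (Dvd.intro_left _ rfl)
    have h1 := (hv d hok {i}).1.1
    rw [prod_singleton, hi] at h1
    refine hsne i ?_
    rw [hi]
    exact h1 d dvd_rfl
  have hprodJ : ∀ J J₁ : Finset (Fin (k + 1)), (∏ i ∈ J, s i) * ∏ i ∈ J₁, s i =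
      (∏ i ∈ (J \ J₁) ∪ (J₁ \ J), s i) * (∏ i ∈ J ∩ J₁, s i) ^ 2 := by
    intro J J₁
    have hd : Disjoint (J \ J₁) (J₁ \ J) := by
      rw [disjoint_left]
      intro i h1 h2
      exact (mem_sdiff.1 h1).2 (mem_sdiff.1 h2).1
    rw [prod_union hd]
    have e1 : ∏ i ∈ J, s i = (∏ i ∈ J ∩ J₁, s i) * ∏ i ∈ J \ J₁, s i :=
      (prod_inter_mul_prod_sdiff J J₁ s).symm
    have e2 : ∏ i ∈ J₁, s i = (∏ i ∈ J ∩ J₁, s i) * ∏ i ∈ J₁ \ J, s i := by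
      rw [inter_comm]
      exact (prod_inter_mul_prod_sdiff J₁ J s).symm
    rw [e1, e2]
    ring
  have hkey : ∀ U ⊆ sset W h p, ∀ M ∈ T, Adm (M * ∏ d ∈ U, d) ∧
      (Good T S₀ → ∀ V ⊆ S₀ ∪ sset W h p, ∀ D z : ℤ, Adm D →
        (M * ∏ d ∈ U, d) * ∏ d ∈ V, d = D * z ^ 2 → Small D) := by
    intro U hUS M hM
    obtain ⟨J, eJ, -⟩ := hU U hUS
    refine ⟨?_, fun hg V hV D z hD hz => ?_⟩
    · rw [eJ]
      refine (hv M ⟨hT M hM, ?_, hsT M hM⟩ J).1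
      exact (Nat.mul_dvd_mul_left 504 (Dvd.intro _ rfl)).trans (hPM M hM)
    · obtain ⟨U₀, hU₀, U₁, hU₁, e, -⟩ := hsplit V hV
      obtain ⟨J₁, eJ₁, -⟩ := hU U₁ hU₁
      obtain ⟨D', j, hok, hj, hD'⟩ := ok_mul (hT M hM) hS₀.1 (hPM M hM) (hsT M hM) hsS hU₀
      obtain ⟨v1, -, v3⟩ := hv D' hok ((J \ J₁) ∪ (J₁ \ J))
      have hne : j * ∏ i ∈ J ∩ J₁, s i ≠ 0 := mul_ne_zero hj (prod_ne_zero_iff.2 fun i _ h0 => by
        have := (hone {i} (singleton_nonempty i)).1.1.ne_zero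
        rw [prod_singleton] at this
        exact this h0)
      have e2 : (D' * ∏ i ∈ (J \ J₁) ∪ (J₁ \ J), s i) * (j * ∏ i ∈ J ∩ J₁, s i) ^ 2 = D * z ^ 2 := by
        rw [← hz, eJ, e, eJ₁]
        have e3 := hprodJ J J₁
        calc (D' * ∏ i ∈ (J \ J₁) ∪ (J₁ \ J), s i) * (j * ∏ i ∈ J ∩ J₁, s i) ^ 2
            = (D' * j ^ 2) * ((∏ i ∈ (J \ J₁) ∪ (J₁ \ J), s i) * (∏ i ∈ J ∩ J₁, s i) ^ 2) := by ring
          _ = (M * ∏ d ∈ U₀, d) * ((∏ i ∈ J, s i) * ∏ i ∈ J₁, s i) := by rw [← e3, ← hD']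
          _ = _ := by ring
      rw [← sqf_unique v1.1 hD.1 hne e2]
      exact v3.2 (hg.2 M hM U₀ hU₀ D' j hok.1 hD')
  refine ⟨?_, ⟨fun d hd => ?_, fun V hV hne hsqr => ?_⟩, hkey, fun hg => ?_, fun hg => ?_⟩
  · rw [card_union_of_disjoint hdisj, hSs, card_image_of_injective _ hsinj, card_univ,
      Fintype.card_fin]
  · rcases mem_union.1 hd with hd | hd
    · exact hS₀.1 d hd
    · rw [hSs, mem_image] at hd
      obtain ⟨i, -, rfl⟩ := hd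
      have := (hone {i} (singleton_nonempty i)).1
      rwa [prod_singleton] at this
  · obtain ⟨U₀, hU₀, U₁, hU₁, e, e0⟩ := hsplit V hV
    rcases U₁.eq_empty_or_nonempty with h1 | h1
    · refine hS₀.2 V ?_ hne hsqr
      rw [e0 h1]
      exact hU₀
    · obtain ⟨J₁, eJ₁, hJ₁⟩ := hU U₁ hU₁
      obtain ⟨D', j, hok, hj, hD'⟩ := ok_mul adm_one hS₀.1 hP1 hok1.2.2 hsS hU₀
      rw [one_mul] at hD'
      obtain ⟨v1, v2, -⟩ := hv D' hok J₁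
      obtain ⟨w, hw⟩ := hsqr
      have e2 : (D' * ∏ i ∈ J₁, s i) * j ^ 2 = 1 * w ^ 2 := by
        rw [one_mul, sq w, ← hw, e, eJ₁, hD']
        ring
      exact v2 (hJ₁ h1) (sqf_unique v1.1 squarefree_one hj e2)
  · refine ⟨hT, fun M hM U hU D' z hD' hz => ?_⟩
    exact hg.2 M hM U (hU.trans subset_union_left) D' z hD' hz
  · refine ⟨hT, fun M hM V hV D z hD hz => ?_⟩
    refine (hkey ∅ (empty_subset _) M hM).2 hg V hV D z hD ?_
    rw [prod_empty, mul_one]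
    exact hz

end Pool.Agent.V11161.BH
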